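import Mathlib

set_option autoImplicit false

namespace Pool.Agent.Results.MP_ecebd1_co.DiffIndexGap

/-- The set of edge sums `f u + f v` (`uv` an edge of `G`) of a labelling `f`. -/
def edgeSums {V : Type} (G : SimpleGraph V) (f : V → ℤ) : Set ℤ :=
  {s | ∃ u v, G.Adj u v ∧ f u + f v = s}

/-- The set of edge differences `|f u - f v|` (`uv` an edge of `G`) of a labelling `f`. -/
def edgeDiffs {V : Type} (G : SimpleGraph V) (f : V → ℤ) : Set ℤ :=
  {s | ∃ u v, G.Adj u v ∧ |f u - f v| = s}

/-- The sum index of `G`: the minimum number of distinct edge sums over all injective integer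
labellings. -/
noncomputable def sm {V : Type} (G : SimpleGraph V) : ℕ :=
  sInf {k | ∃ f : V → ℤ, Function.Injective f ∧ (edgeSums G f).ncard = k}

/-- The difference index of `G`: the minimum number of distinct edge differences over all
injective integer labellings. -/
noncomputable def df {V : Type} (G : SimpleGraph V) : ℕ :=
  sInf {k | ∃ f : V → ℤ, Function.Injective f ∧ (edgeDiffs G f).ncard = k}

section ParentTree

variable {V : Type}

/-- The graph given by a parent function on the non-root vertices. -/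
def parentGraph (r : V) (p : V → V) : SimpleGraph V :=
  SimpleGraph.fromRel (fun u v => u ≠ r ∧ p u = v)

lemma height_iterate_le {r : V} {p : V → V} {h : V → ℕ} (hr : p r = r)
    (hp : ∀ v, v ≠ r → h (p v) < h v) (k : ℕ) (v : V) : h (p^[k] v) ≤ h v := by
  induction k generalizing v with
  | zero => simp
  | succ k ih =>
    rw [Function.iterate_succ_apply]
    refine (ih (p v)).trans ?_
    by_cases hv : v = r
    · subst hv; rw [hr]
    · exact (hp v hv).le

lemma parentGraph_isTree (r : V) (p : V → V) (h : V → ℕ) (hr : p r = r)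
    (hp : ∀ v, v ≠ r → h (p v) < h v) : (parentGraph r p).IsTree := by
  have hreach : ∀ n (v : V), h v = n → (parentGraph r p).Reachable v r := by
    intro n
    induction n using Nat.strong_induction_on with
    | _ n ih =>
      intro v hv
      by_cases hvr : v = r
      · subst hvr; exact SimpleGraph.Reachable.refl _
      · have h1 := hp v hvr
        have hne : v ≠ p v := by
          intro he; rw [← he] at h1; exact lt_irrefl _ h1
        have hadj : (parentGraph r p).Adj v (p v) := by
          simp only [parentGraph, SimpleGraph.fromRel_adj]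
          exact ⟨hne, Or.inl ⟨hvr, trivial⟩⟩
        exact hadj.reachable.trans (ih (h (p v)) (hv ▸ h1) (p v) rfl)
  have hconn : (parentGraph r p).Connected := by
    have : Nonempty V := ⟨r⟩
    exact SimpleGraph.Connected.mk (fun u v => (hreach _ u rfl).trans (hreach _ v rfl).symm)
  refine ⟨hconn, ?_⟩
  rw [SimpleGraph.isAcyclic_iff_forall_adj_isBridge]
  -- it suffices to treat the edge from a vertex to its parent
  have key : ∀ v, v ≠ r → (parentGraph r p).IsBridge s(v, p v) := by
    intro v hv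
    rw [SimpleGraph.isBridge_iff]
    intro hre
    have hstep : ∀ (u w : V), ((parentGraph r p) \ SimpleGraph.fromEdgeSet {s(v, p v)}).Adj u w →
        (∃ k, p^[k] u = v) → ∃ k, p^[k] w = v := by
      rintro u w huw ⟨k, hk⟩
      rw [SimpleGraph.sdiff_adj] at huw
      obtain ⟨huw1, huw2⟩ := huw
      simp only [parentGraph, SimpleGraph.fromRel_adj] at huw1
      rcases huw1.2 with ⟨hur, hpu⟩ | ⟨hwr, hpw⟩
      · cases k with
        | zero =>
          exfalso
          simp only [Function.iterate_zero, id_eq] at hk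
          subst hk
          subst hpu
          apply huw2
          simp only [SimpleGraph.fromEdgeSet_adj, Set.mem_singleton_iff]
          exact ⟨trivial, huw1.1⟩
        | succ k =>
          rw [Function.iterate_succ_apply, hpu] at hk
          exact ⟨k, hk⟩
      · exact ⟨k + 1, by rw [Function.iterate_succ_apply, hpw, hk]⟩
    have hwalk : ∀ (u w : V), ((parentGraph r p) \ SimpleGraph.fromEdgeSet {s(v, p v)}).Reachable u w →
        (∃ k, p^[k] u = v) → ∃ k, p^[k] w = v := by
      rintro u w ⟨q⟩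
      induction q with
      | nil => exact id
      | cons hadj _ ih => exact fun hu => ih (hstep _ _ hadj hu)
    obtain ⟨k, hk⟩ := hwalk v (p v) hre ⟨0, rfl⟩
    have h1 := height_iterate_le (h := h) hr hp k (p v)
    rw [hk] at h1
    exact absurd (hp v hv) (not_lt.mpr h1)
  intro u w huw
  simp only [parentGraph, SimpleGraph.fromRel_adj] at huw
  rcases huw.2 with ⟨hur, hpu⟩ | ⟨hwr, hpw⟩
  · rw [← hpu]; exact key u hur
  · rw [← hpw, Sym2.eq_swap]; exact key w hwr

end ParentTree

section Construction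

/-- Vertices of the tree `T N`: the root `none`, its `N` children, and the grandchildren `(i, j)`
with `i ≠ j`, where `(i, j)` hangs below the `i`-th child. -/
abbrev TV (N : ℕ) : Type := Option (Fin N ⊕ {q : Fin N × Fin N // q.1 ≠ q.2})

def par {N : ℕ} : TV N → TV N
  | none => none
  | some (Sum.inl _) => none
  | some (Sum.inr q) => some (Sum.inl q.1.1)

def ht {N : ℕ} : TV N → ℕ
  | none => 0
  | some (Sum.inl _) => 1
  | some (Sum.inr _) => 2

def T (N : ℕ) : SimpleGraph (TV N) := parentGraph none par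

lemma T_isTree (N : ℕ) : (T N).IsTree := by
  refine parentGraph_isTree none par ht rfl ?_
  rintro (_ | (i | q)) hv
  · exact absurd rfl hv
  · simp [par, ht]
  · simp [par, ht]

lemma T_adj_root {N : ℕ} (i : Fin N) : (T N).Adj none (some (Sum.inl i)) := by
  simp [T, parentGraph, par]

lemma T_adj_child {N : ℕ} (q : {q : Fin N × Fin N // q.1 ≠ q.2}) :
    (T N).Adj (some (Sum.inl q.1.1)) (some (Sum.inr q)) := by
  simp [T, parentGraph, par]

/-- The edges of `T N`, listed. -/
lemma T_adj_cases {N : ℕ} {u v : TV N} (h : (T N).Adj u v) :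
    (∃ i, (u = none ∧ v = some (Sum.inl i)) ∨ (v = none ∧ u = some (Sum.inl i))) ∨
    (∃ q : {q : Fin N × Fin N // q.1 ≠ q.2},
      (u = some (Sum.inl q.1.1) ∧ v = some (Sum.inr q)) ∨
      (v = some (Sum.inl q.1.1) ∧ u = some (Sum.inr q))) := by
  simp only [T, parentGraph, SimpleGraph.fromRel_adj] at h
  obtain ⟨hne, ⟨h1, h2⟩ | ⟨h1, h2⟩⟩ := h
  · rcases u with _ | (i | q)
    · exact absurd rfl h1
    · left; exact ⟨i, Or.inr ⟨h2.symm, rfl⟩⟩
    · right; exact ⟨q, Or.inr ⟨h2.symm, rfl⟩⟩
  · rcases v with _ | (i | q)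
    · exact absurd rfl h1
    · left; exact ⟨i, Or.inl ⟨h2.symm, rfl⟩⟩
    · right; exact ⟨q, Or.inl ⟨h2.symm, rfl⟩⟩

/-- The sum labelling. -/
def lab {N : ℕ} : TV N → ℤ
  | none => 2 ^ (N + 1)
  | some (Sum.inl i) => 2 ^ (i : ℕ) - 2 ^ (N + 1)
  | some (Sum.inr q) => 2 ^ (q.1.2 : ℕ) - 2 ^ (q.1.1 : ℕ) + 2 ^ (N + 1)

lemma two_pow_sub_aux {a b c d : ℕ} (hab : a < b)
    (h : (2 : ℤ) ^ b - 2 ^ a = 2 ^ d - 2 ^ c) : b ≤ d := by
  by_contra hlt
  push Not at hlt
  obtain ⟨b', rfl⟩ : ∃ b', b = b' + 1 := ⟨b - 1, by omega⟩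
  have h1 : (2 : ℤ) ^ a ≤ 2 ^ b' := pow_le_pow_right₀ (by norm_num) (by omega)
  have h2 : (2 : ℤ) ^ d ≤ 2 ^ b' := pow_le_pow_right₀ (by norm_num) (by omega)
  have h3 : (0 : ℤ) < 2 ^ c := by positivity
  rw [pow_succ] at h
  linarith

lemma two_pow_inj {a b : ℕ} (h : (2 : ℤ) ^ a = 2 ^ b) : a = b := by
  have : (2 : ℕ) ^ a = 2 ^ b := by exact_mod_cast h
  exact Nat.pow_right_injective (le_refl 2) this

lemma two_pow_lt {a b : ℕ} (h : a < b) : (2 : ℤ) ^ a < 2 ^ b :=
  pow_lt_pow_right₀ (by norm_num) h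

lemma two_pow_sidon_aux {a b c d : ℕ} (hab : a < b) (hcd : c < d)
    (h : (2 : ℤ) ^ b - 2 ^ a = 2 ^ d - 2 ^ c) : a = c ∧ b = d := by
  have h1 : b = d := le_antisymm (two_pow_sub_aux hab h) (two_pow_sub_aux hcd h.symm)
  subst h1
  exact ⟨two_pow_inj (by linarith), rfl⟩

lemma two_pow_sidon {a b c d : ℕ} (hab : a ≠ b) (hcd : c ≠ d)
    (h : (2 : ℤ) ^ b - 2 ^ a = 2 ^ d - 2 ^ c) : a = c ∧ b = d := by
  rcases lt_or_gt_of_ne hab with h1 | h1 <;> rcases lt_or_gt_of_ne hcd with h2 | h2
  · exact two_pow_sidon_aux h1 h2 h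
  · have := two_pow_lt h1; have := two_pow_lt h2; linarith
  · have := two_pow_lt h1; have := two_pow_lt h2; linarith
  · obtain ⟨h3, h4⟩ := two_pow_sidon_aux h1 h2 (by linarith)
    exact ⟨h4, h3⟩

lemma lab_injective (N : ℕ) : Function.Injective (lab : TV N → ℤ) := by
  have hfin : ∀ i : Fin N, (2 : ℤ) ^ (i : ℕ) < 2 ^ (N + 1) := fun i => two_pow_lt (by omega)
  have hpos : ∀ i : ℕ, (0 : ℤ) < 2 ^ i := fun i => by positivity
  rintro (_ | (i | q)) (_ | (j | q')) h
  · rfl
  · simp only [lab] at h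
    have := hfin j; have := hpos (N + 1); linarith
  · simp only [lab] at h
    have h1 : (q'.1.2 : ℕ) = (q'.1.1 : ℕ) := two_pow_inj (by linarith)
    exact absurd (Fin.ext h1).symm q'.2
  · simp only [lab] at h
    have := hfin i; have := hpos (N + 1); linarith
  · simp only [lab] at h
    have h1 : (i : ℕ) = (j : ℕ) := two_pow_inj (by linarith)
    rw [Fin.ext h1]
  · simp only [lab] at h
    have := hfin i; have := hpos (N + 1); have := hpos (q'.1.2 : ℕ); have := hfin q'.1.1
    linarith
  · simp only [lab] at h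
    have h1 : (q.1.2 : ℕ) = (q.1.1 : ℕ) := two_pow_inj (by linarith)
    exact absurd (Fin.ext h1).symm q.2
  · simp only [lab] at h
    have := hfin j; have := hpos (N + 1); have := hpos (q.1.2 : ℕ); have := hfin q.1.1
    linarith
  · simp only [lab] at h
    have hq : ((q.1.1 : Fin N) : ℕ) ≠ (q.1.2 : ℕ) := fun h => q.2 (Fin.ext h)
    have hq' : ((q'.1.1 : Fin N) : ℕ) ≠ (q'.1.2 : ℕ) := fun h => q'.2 (Fin.ext h)
    obtain ⟨h1, h2⟩ := two_pow_sidon hq hq' (by linarith)
    have : q = q' := Subtype.ext (Prod.ext (Fin.ext h1) (Fin.ext h2))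
    rw [this]

lemma sm_le (N : ℕ) : sm (T N) ≤ N := by
  set S : Finset ℤ := (Finset.univ : Finset (Fin N)).image (fun i : Fin N => (2 : ℤ) ^ (i : ℕ))
    with hS
  have hsub : edgeSums (T N) (lab : TV N → ℤ) ⊆ (S : Set ℤ) := by
    rintro s ⟨u, v, huv, rfl⟩
    rw [hS, Finset.mem_coe, Finset.mem_image]
    rcases T_adj_cases huv with ⟨i, ⟨rfl, rfl⟩ | ⟨rfl, rfl⟩⟩ | ⟨q, ⟨rfl, rfl⟩ | ⟨rfl, rfl⟩⟩
    · exact ⟨i, Finset.mem_univ _, by simp only [lab]; ring⟩
    · exact ⟨i, Finset.mem_univ _, by simp only [lab]; ring⟩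
    · exact ⟨q.1.2, Finset.mem_univ _, by simp only [lab]; ring⟩
    · exact ⟨q.1.2, Finset.mem_univ _, by simp only [lab]; ring⟩
  have h1 : sm (T N) ≤ (edgeSums (T N) (lab : TV N → ℤ)).ncard :=
    Nat.sInf_le ⟨lab, lab_injective N, rfl⟩
  refine h1.trans ?_
  refine (Set.ncard_le_ncard hsub (Finset.finite_toSet _)).trans ?_
  rw [Set.ncard_coe_finset]
  exact Finset.card_image_le.trans (by simp)

/-- The sum of an unordered pair. -/
def pairSum : Sym2 ℤ → ℤ := Sym2.lift ⟨fun a b => a + b, fun a b => add_comm a b⟩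

@[simp] lemma pairSum_mk (a b : ℤ) : pairSum s(a, b) = a + b := rfl

/-- The set of values that a vertex at even distance at most two from the root can have
relative to the root, if all edge differences lie in `D`. -/
def evenVals (D : Finset ℤ) : Finset ℤ :=
  insert 0 ((D.sym2.image pairSum) ∪ (D.sym2.image (fun z => - pairSum z)) ∪
    (D.offDiag.image (fun z => z.1 - z.2)))

lemma card_evenVals (D : Finset ℤ) : (evenVals D).card ≤ 2 * D.card ^ 2 + 1 := by
  have h1 : (D.sym2.image pairSum).card ≤ (D.card + 1).choose 2 :=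
    Finset.card_image_le.trans (Finset.card_sym2 D).le
  have h2 : (D.sym2.image (fun z => - pairSum z)).card ≤ (D.card + 1).choose 2 :=
    Finset.card_image_le.trans (Finset.card_sym2 D).le
  have h3 : (D.offDiag.image (fun z => z.1 - z.2)).card ≤ D.card * D.card - D.card :=
    Finset.card_image_le.trans (Finset.offDiag_card D).le
  have h4 : 2 * (D.card + 1).choose 2 = (D.card + 1) * D.card := by
    rw [Nat.choose_two_right]
    exact Nat.mul_div_cancel' (Nat.even_mul_pred_self (D.card + 1)).two_dvd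
  have h5 := Finset.card_union_le ((D.sym2.image pairSum) ∪ (D.sym2.image (fun z => - pairSum z)))
    (D.offDiag.image (fun z => z.1 - z.2))
  have h6 := Finset.card_union_le (D.sym2.image pairSum) (D.sym2.image (fun z => - pairSum z))
  have h7 : D.card ≤ D.card * D.card := by
    rcases Nat.eq_zero_or_pos D.card with h | h
    · simp [h]
    · exact Nat.le_mul_of_pos_left _ h
  have h8 : (evenVals D).card ≤ ((D.sym2.image pairSum) ∪ (D.sym2.image (fun z => - pairSum z)) ∪
    (D.offDiag.image (fun z => z.1 - z.2))).card + 1 := Finset.card_insert_le _ _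
  have h9 : D.card * D.card - D.card + D.card = D.card * D.card := Nat.sub_add_cancel h7
  nlinarith

lemma mem_evenVals_of {D : Finset ℤ} {x y : ℤ} (hx : |x| ∈ D) (hy : |y| ∈ D) :
    x + y ∈ evenVals D := by
  unfold evenVals
  simp only [Finset.mem_insert, Finset.mem_union, Finset.mem_image, Finset.mem_offDiag,
    Prod.exists]
  rcases abs_cases x with ⟨h1, _⟩ | ⟨h1, _⟩ <;> rcases abs_cases y with ⟨h2, _⟩ | ⟨h2, _⟩
  · right; left; left
    exact ⟨s(|x|, |y|), by simp [hx, hy], by simp [h1, h2]⟩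
  · by_cases h : |x| = |y|
    · left; rw [h1, h2] at h; linarith
    · right; right
      exact ⟨|x|, |y|, ⟨hx, hy, h⟩, by rw [h1, h2]; ring⟩
  · by_cases h : |x| = |y|
    · left; rw [h1, h2] at h; linarith
    · right; right
      exact ⟨|y|, |x|, ⟨hy, hx, fun h' => h h'.symm⟩, by rw [h1, h2]; ring⟩
  · right; left; right
    exact ⟨s(|x|, |y|), by simp [hx, hy], by simp [h1, h2]; ring⟩

/-- The root and the grandchildren. -/
def evenVert {N : ℕ} : Option {q : Fin N × Fin N // q.1 ≠ q.2} → TV N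
  | none => none
  | some q => some (Sum.inr q)

lemma evenVert_injective {N : ℕ} : Function.Injective (evenVert (N := N)) := by
  rintro (_ | q) (_ | q') h
  · rfl
  · simp [evenVert] at h
  · simp [evenVert] at h
  · simp only [evenVert, Option.some.injEq, Sum.inr.injEq] at h
    rw [h]

lemma card_offdiag_pairs (N : ℕ) :
    Fintype.card (Option {q : Fin N × Fin N // q.1 ≠ q.2}) = N * (N - 1) + 1 := by
  rw [Fintype.card_option, Fintype.card_subtype]
  congr 1
  have : (Finset.univ.filter (fun q : Fin N × Fin N => q.1 ≠ q.2)) =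
      (Finset.univ : Finset (Fin N)).offDiag := by
    ext q; simp
  rw [this, Finset.offDiag_card]
  simp [Nat.mul_sub]

lemma card_le_of_labelling (N : ℕ) (f : TV N → ℤ) (hf : Function.Injective f) :
    N * (N - 1) ≤ 2 * (edgeDiffs (T N) f).ncard ^ 2 := by
  have hfin : (edgeDiffs (T N) f).Finite := by
    have : edgeDiffs (T N) f ⊆ Set.range (fun p : TV N × TV N => |f p.1 - f p.2|) := by
      rintro s ⟨u, v, _, rfl⟩
      exact ⟨(u, v), rfl⟩
    exact (Set.finite_range _).subset this
  set D : Finset ℤ := hfin.toFinset with hD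
  have hDcard : (edgeDiffs (T N) f).ncard = D.card := Set.ncard_eq_toFinset_card _ hfin
  have hmem : ∀ o : Option {q : Fin N × Fin N // q.1 ≠ q.2},
      f (evenVert o) - f none ∈ evenVals D := by
    rintro (_ | q)
    · simp [evenVert, evenVals]
    · have h1 : |f (some (Sum.inr q)) - f (some (Sum.inl q.1.1))| ∈ D := by
        rw [hD, Set.Finite.mem_toFinset]
        exact ⟨_, _, (T_adj_child q).symm, rfl⟩
      have h2 : |f (some (Sum.inl q.1.1)) - f none| ∈ D := by
        rw [hD, Set.Finite.mem_toFinset]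
        exact ⟨_, _, (T_adj_root q.1.1).symm, rfl⟩
      have := mem_evenVals_of h1 h2
      simpa [evenVert] using this
  have hcard : Fintype.card (Option {q : Fin N × Fin N // q.1 ≠ q.2}) ≤ (evenVals D).card := by
    rw [← Finset.card_univ]
    refine Finset.card_le_card_of_injOn (fun o => f (evenVert o) - f none)
      (fun o _ => hmem o) ?_
    intro o _ o' _ h
    simp only [sub_left_inj] at h
    exact evenVert_injective (hf h)
  rw [card_offdiag_pairs] at hcard
  have := card_evenVals D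
  rw [hDcard]
  omega

lemma df_ge (N : ℕ) : N * (N - 1) ≤ 2 * (df (T N)) ^ 2 := by
  have hne : {k | ∃ f : TV N → ℤ, Function.Injective f ∧ (edgeDiffs (T N) f).ncard = k}.Nonempty :=
    ⟨_, lab, lab_injective N, rfl⟩
  obtain ⟨f, hf, hk⟩ := Nat.sInf_mem hne
  have := card_le_of_labelling N f hf
  unfold df
  rw [← hk]
  exact this

end Construction

/-- For every integer `k` there is a finite tree `G` (in particular a bipartite graph) with
`df G - ⌈sm G / 2⌉ ≥ k`. -/
theorem result : ∀ k : ℤ, ∃ (V : Type) (_ : Finite V) (G : SimpleGraph V),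
    G.IsTree ∧ G.IsBipartite ∧ (∃ u v, G.Adj u v) ∧ k ≤ (df G : ℤ) - ⌈(sm G : ℚ) / 2⌉ := by
  intro k
  set m : ℕ := k.toNat + 1 with hm
  have hkm : k ≤ m := by omega
  have hm1 : 1 ≤ m := by omega
  refine ⟨TV (8 * m), inferInstance, T (8 * m), T_isTree _, (T_isTree _).isAcyclic.isBipartite,
    ⟨none, some (Sum.inl ⟨0, by omega⟩), T_adj_root _⟩, ?_⟩
  have h1 := sm_le (8 * m)
  have h2 := df_ge (8 * m)
  have h3 : ⌈(sm (T (8 * m)) : ℚ) / 2⌉ ≤ (4 * m : ℤ) := by
    rw [Int.ceil_le]
    have : (sm (T (8 * m)) : ℚ) ≤ 8 * m := by exact_mod_cast h1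
    push_cast
    linarith
  have h4 : 5 * m ≤ df (T (8 * m)) := by
    by_contra hlt
    push Not at hlt
    obtain ⟨a, ha⟩ : ∃ a, df (T (8 * m)) + a + 1 = 5 * m := ⟨5 * m - df (T (8 * m)) - 1, by omega⟩
    have h5 : 8 * m * (8 * m - 1) + 8 * m = 64 * m * m := by
      have : 8 * m - 1 + 1 = 8 * m := by omega
      calc 8 * m * (8 * m - 1) + 8 * m = 8 * m * (8 * m - 1 + 1) := by ring
        _ = 64 * m * m := by rw [this]; ring
    nlinarith
  have h6 : (5 * m : ℤ) ≤ df (T (8 * m)) := by exact_mod_cast h4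
  linarith

end Pool.Agent.Results.MP_ecebd1_co.DiffIndexGap
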